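import Pool.Agent.W994.PL3
import Pool.Agent.W994.PL4
import Pool.Agent.W994.PL5

/-!
# Polylogarithmic space is not contained in P for circuits with few NOT gates

For every `A` there is an explicit language in `POLYLOGSPACE` (even in `NP` and in `POLYLOGSPACE`)
that is not decided by circuits of size `2 ^ (log N) ^ A` with at most `log N - 5 A loglog N` NOT
gates; the other gates may be arbitrary monotone real gates with two inputs. So each of
`POLYLOGSPACE`, `DLBA` and `LBA` is not contained in `P`, in the model of circuits with
`log N - O(loglog N)` NOT gates. (Circuits for languages in `P` can be made to have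
`⌈log (N + 1)⌉` NOT gates and still polynomial size, by a theorem of Markov and Fischer, so that
the separation for `⌈log (N + 1)⌉` NOT gates would give `POLYLOGSPACE ⊄ P`.)

The language: the input of length `N` is cut into blocks of length `(log N) ^ (17 A)`, and one of
the blocks codes a graph with a clique that contains at least half of the vertices.

The proof: every block contains many copies of the problem whether a set of points of the plane
over a finite field contains the graph of a polynomial of small degree (`half_embed` of the
starting file `H560R2.Half1`). A chain of inputs is built copy by copy. If no rejected input in the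
current copy changed the bits that enter the further gates, then these gates could be frozen, and a
small circuit of monotone real gates would decide the copy (`chainR`, `poly_lowerR` of the starting
files `H560R2.Real4`, `H560R2.Real2`). For polylogarithmic space the algorithm searches, block by
block, for a certificate of the block.
-/

set_option autoImplicit false

namespace Pool.Agent.Results.MP_d19090_lc.BlockHalfClique

open Pool.Agent.H520R2.HC Pool.Agent.NPC Pool.Agent.W994.PL

/-- A real circuit with `N` input bits and gates `0, ..., s - 1`. Gate `i` has `w i` inputs, namely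
`a i j`, each an input bit (`0` or `1`) or an earlier gate, and its value on the input `x` is
`val x i`. The gates outside `T` compute nondecreasing functions of at most two real numbers. The
output of a gate `i` in `T` depends in an arbitrary way on the bits that tell whether `θ i j` is at
most the `j`-th input. The circuit accepts if the value of gate `out` is at least `τ`. -/
structure RealCircuit (N : ℕ) where
  s : ℕ
  T : Finset (Fin s)
  w : Fin s → ℕ
  a : (i : Fin s) → Fin (w i) → Fin N ⊕ Fin s
  op : (i : Fin s) → (Fin (w i) → ℝ) → ℝ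
  θ : (i : Fin s) → Fin (w i) → ℝ
  val : (Fin N → Bool) → Fin s → ℝ
  out : Fin s
  τ : ℝ
  earlier : ∀ i j k, a i j = Sum.inr k → k < i
  mono : ∀ i ∉ T, w i ≤ 2 ∧ Monotone (op i)
  free : ∀ i ∈ T, ∀ z z' : Fin (w i) → ℝ, (∀ j, θ i j ≤ z j ↔ θ i j ≤ z' j) → op i z = op i z'
  spec : ∀ x i, val x i = op i (fun j =>
    Sum.elim (fun p => if x p = true then (1 : ℝ) else 0) (val x) (a i j))

/-- The `j`-th bit that enters the gate `i` of `T`, on the input `x`. -/
def RealCircuit.Bit {N : ℕ} (C : RealCircuit N) (x : Fin N → Bool) (i : Fin C.s)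
    (j : Fin (C.w i)) : Prop :=
  C.θ i j ≤ Sum.elim (fun p => if x p = true then (1 : ℝ) else 0) (C.val x) (C.a i j)

/-- The number of gates plus the number of inputs of the gates in `T`. -/
def RealCircuit.size {N : ℕ} (C : RealCircuit N) : ℕ := C.s + ∑ i ∈ C.T, C.w i

/-- The circuit decides `L` on the words of length `N`. -/
def RealCircuit.Decides {N : ℕ} (C : RealCircuit N) (L : Set (List Bool)) : Prop :=
  ∀ x : Fin N → Bool, C.τ ≤ C.val x C.out ↔ List.ofFn x ∈ L

/-- For every `A ≥ 1` the language `SomeBlock (17 A) HalfClique` is in `NP` and in `POLYLOGSPACE`,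
and for all large `N`, if a real circuit of size at most `2 ^ (log N) ^ A` decides it on the words of
length `N`, then there is a chain `x 0 ≤ x 1 ≤ ... ≤ x M` of words outside the language, with
`M ≥ N / (log N) ^ (5 A)`, such that at each of the `M` steps some bit that enters a gate of `T`
changes; and the product of the numbers `w i + 1` over the gates of `T` is larger than
`N / (log N) ^ (5 A)`. In particular, if the gates in `T` are NOT gates, then there are more than
`log N - 5 A loglog N` of them. -/
theorem result : ∀ A : ℕ, 1 ≤ A →
    InNP (SomeBlock (17 * A) HalfClique) ∧ PolylogSpace (SomeBlock (17 * A) HalfClique) ∧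
    ∃ n₀ : ℕ, ∀ N ≥ n₀, ∀ C : RealCircuit N, C.Decides (SomeBlock (17 * A) HalfClique) →
      C.size ≤ 2 ^ (Nat.log 2 N) ^ A →
      (∃ (M : ℕ) (x : ℕ → Fin N → Bool), N ≤ (Nat.log 2 N) ^ (5 * A) * M ∧
        (∀ i < M, x i ≤ x (i + 1) ∧
          ∃ t ∈ C.T, ∃ j, ¬ (C.Bit (x i) t j ↔ C.Bit (x (i + 1)) t j)) ∧
        ∀ i ≤ M, List.ofFn (x i) ∉ SomeBlock (17 * A) HalfClique) ∧
      N < (Nat.log 2 N) ^ (5 * A) * ∏ i ∈ C.T, (C.w i + 1) := by
  intro A hA
  refine ⟨someBlock_inNP _ inNP_halfClique, someBlock_polylogSpace _ inNP_halfClique, ?_⟩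
  obtain ⟨n₀, hn₀⟩ := estimates A hA
  refine ⟨n₀ + 2, fun N hN C hC hsize => ?_⟩
  obtain ⟨h1, h2, h3⟩ := hn₀ N (by omega)
  have hdec : ∀ x : Fin N → Bool, C.τ ≤ C.val x C.out ↔
      InBlock ((Nat.log 2 N) ^ (17 * A)) HalfClique (List.ofFn x) := by
    intro x
    rw [hC x]
    show InBlock _ _ _ ↔ _
    rw [List.length_ofFn]
  obtain ⟨x, hx1, hx2⟩ := block_real (θ := C.θ) ((Nat.log 2 N) ^ A + 1)
    ((Nat.log 2 N) ^ (17 * A)) h3 h1 C.earlier C.mono C.free C.spec C.out C.τ hdec (by
      refine lt_of_le_of_lt hsize ?_
      exact Nat.pow_lt_pow_right (by norm_num) (Nat.lt_succ_self _))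
  have hprod := Pool.Agent.H560R2.chain_leR C.earlier C.mono C.free C.spec _ x
      (fun i hi => (hx1 i hi).1) (fun i hi => (hx1 i hi).2)
  have hpos : 0 < (Nat.log 2 N) ^ (5 * A) := by
    refine Nat.pow_pos (Nat.log_pos (by norm_num) (by omega))
  refine ⟨⟨_, x, h2, hx1, fun i hi => ?_⟩, ?_⟩
  · have := hx2 i hi
    show ¬ InBlock _ _ _
    rw [List.length_ofFn]
    exact this
  · exact lt_of_le_of_lt h2 (Nat.mul_lt_mul_of_pos_left hprod hpos)

end Pool.Agent.Results.MP_d19090_lc.BlockHalfClique
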