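import Pool.Agent.W886.LS.Fin

/-!
# How many strings of a random oracle have to be changed for the containments between linear space and `P`, `NP`?

`LinSpace A` and `NLinSpace A` are deterministic and nondeterministic linear space relative to the
oracle `A` (the classes DLBA and LBA). The number of changes is measured by a function `g`: the
oracle `A` is obtained from `O` by changing, for all large `n`, at most `g n` of the strings of
length at most `n`.

* If `g n ≤ 2 ^ (ε n)` for every `ε > 0` and infinitely many `n`, then, for almost every oracle `O`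
  and all oracles `A` that are obtained from `O` by at most `g` changes, `P` is not contained in
  (non)deterministic linear space relative to `A`. Otherwise every oracle `O` can be changed, by at
  most `g` changes, such that even `NP` is contained in deterministic linear space.
* If `g n ≤ 2 ^ (n ^ ε)` for every `ε > 0` and infinitely many `n`, then, for almost every oracle `O`
  and all these `A`, deterministic linear space is not contained in `P` and not in `NP`, not even in
  the polynomial hierarchy with advice. Otherwise every oracle `O` can be changed, by at most `g`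
  changes, such that nondeterministic linear space is contained in `P`.
-/

set_option autoImplicit false

namespace Pool.Agent.Results.MP_d19090_lc.ChangedStrings

open Pool.Agent.NPC Pool.Agent.H620R2.Gauge Pool.Agent.W886.LS
open Pool.Agent.W900.CH (Close)
open Pool.Agent.H628R3.RO (randomOracle)
open MeasureTheory Filter

theorem result (g : ℕ → ℝ) :
    (∀ (A : Oracle) (L : Set (List Bool)), LinSpace A L → NLinSpace A L) ∧
    ((∀ ε : ℝ, 0 < ε → ∃ᶠ n : ℕ in atTop, g n ≤ 2 ^ (ε * n)) →
      ∀ᵐ O ∂randomOracle, ∀ A : Oracle, Close g O A →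
        ∃ L, IsP A L ∧ ¬ LinSpace A L ∧ ¬ NLinSpace A L) ∧
    ((¬ ∀ ε : ℝ, 0 < ε → ∃ᶠ n : ℕ in atTop, g n ≤ 2 ^ (ε * n)) →
      ∀ O : Oracle, ∃ A : Oracle, Close g O A ∧ ∀ L, IsP A L ∨ IsNP A L → LinSpace A L) ∧
    ((∀ ε : ℝ, 0 < ε → ∃ᶠ n : ℕ in atTop, g n ≤ 2 ^ (n : ℝ) ^ ε) →
      ∀ᵐ O ∂randomOracle, ∀ A : Oracle, Close g O A →
        ∃ L, LinSpace A L ∧ ¬ IsP A L ∧ ¬ IsNP A L ∧ ¬ IsPHpoly A L) ∧
    ((¬ ∀ ε : ℝ, 0 < ε → ∃ᶠ n : ℕ in atTop, g n ≤ 2 ^ (n : ℝ) ^ ε) →
      ∀ O : Oracle, ∃ A : Oracle, Close g O A ∧ ∀ L, LinSpace A L ∨ NLinSpace A L → IsP A L) :=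
  ⟨fun _ _ h => lin_nlin h, fun hg => few_P hg, fun hg O => many_NP hg O, fun hg => few_lin hg,
    fun hg O => many_lin hg O⟩

end Pool.Agent.Results.MP_d19090_lc.ChangedStrings
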