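import Pool.Agent.W997.NL.Compact
import Pool.Agent.W997.NL.Final
import Pool.Agent.W459.NLSHIFT
import Pool.Agent.W899.NL.Base
import Pool.Agent.W557.NLCHAIN
import Pool.Agent.W334.NLCOMP
import Pool.Agent.W639.NLCARD
import Pool.Agent.W54.NLNUM
import Pool.Agent.W782.NLLIVE
import Pool.Agent.W978.NLCIRC
import Pool.Agent.W790.NLPROG
import Pool.Agent.W327.NLDEG

/-!
# Polynomial time and space `N / polylog N`: programs which read few variables

The graph `graph i` is a recursive graph of the kind which Paul, Tarjan and Celoni constructed for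
the black pebble game: it has degree at most two, `2 ^ R` inputs and `2 ^ R` outputs, where
`R = 6 + i`, and `n = (R ^ 2 + 2 R - 33) 2 ^ R` nodes. Every node has a table with `k` letters, and
the value of a node is the entry of its table which belongs to the sum of the values of its
children; these are `N = n k` variables. The function `xbit` says whether the number of outputs with
an even value is odd.

Proof idea. Call a node live if the rest of the computation evaluates one of its parents before it
evaluates the node. The set of the live nodes and of the node which is just evaluated is a legal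
sequence of configurations of the black pebble game (also if the program reads other variables, and
whatever it stores). A computation which evaluates all outputs has, by the combinatorial property
`Q` of the graph, at some time `2 ^ i` live nodes, hence `m = 2 ^ (i - 3)` live nodes without common
parents. The fibre bound says that a fraction of at most `C(t, m) / k ^ m` of the inputs lead from a
fixed state to a computation with `m` given live nodes of this kind which reads at most `t`
variables; the union bound over the `C(n, m)` sets of nodes and all states is smaller than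
`γ` if the log size is at most `m log s` and `t ≤ k m ^ 2 / (8 n s ^ 2)`. If an output is not
evaluated, the answer is right with probability `1 / 2`. As `n / m` is polylogarithmic, the
lower bound for the space is linear up to powers of the logarithm, and so is the upper bound.
-/

set_option autoImplicit false

namespace Pool.Agent.Results.MP_d19090_lc.NearLinearSpaceLaw

open Pool.Agent.W997.NL
open Pool.Agent.W997.DB (ByCircuit ByProgram HardReads)

/-- The result for `fam`. -/
theorem main :
    (∀ i : ℕ, (fam i).G.DegLe 2) ∧
    (∀ i : ℕ, 3 ≤ i → ∀ (k : ℕ) [NeZero k], Even k → ∀ s γ : ℝ, 1 ≤ s →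
      1 ≤ γ * s ^ 2 ^ (i - 3) →
      HardReads (fun x : (fam i).G.Var k → Fin k => xbit (fam i) x)
        (2 ^ (i - 3) * Real.log s) γ
        (γ * (Fintype.card ((fam i).G.Var k) / (2 ^ 23 * (6 + i) ^ 4 * s ^ 2)))) ∧
    ∀ A : ℕ, 1 ≤ A → ∃ i₀ : ℕ, ∀ i l : ℕ, i₀ ≤ i → (6 + i) ^ A ≤ 2 ^ l →
      2 ^ l ≤ 2 * (6 + i) ^ A →
      ∀ N : ℝ, N = Fintype.card ((fam i).G.Var (2 ^ l)) →
      ∀ f : ((fam i).G.Var (2 ^ l) → Fin (2 ^ l)) → Bool, f = (fun x => xbit (fam i) x) →
        (∃ T, ByCircuit f (N * Real.log N ^ (A + 1)) T) ∧
        ByProgram f (N / Real.log N ^ (A - 1)) (N / Real.log N ^ A) (N / Real.log N ^ A) ∧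
        HardReads f (N / Real.log N ^ (A + 3)) (1 / Real.log N) (N / Real.log N ^ 6) := by
  have hQ : ∀ i, Q (fam i) (2 ^ i) := q_fam Pool.Agent.W459.NLSHIFT.main Pool.Agent.W899.NL.main
    Pool.Agent.W557.NLCHAIN.main Pool.Agent.W334.NLCOMP.main
  refine ⟨deg_fam Pool.Agent.W327.NLDEG.main, ?_, ?_⟩
  · intro i hi k _ hk s γ hs hγ
    exact fam_law Pool.Agent.W782.NLLIVE.main Pool.Agent.W639.NLCARD.main
      Pool.Agent.W327.NLDEG.main hQ i hi k hk s γ hs hγ
  · exact asym Pool.Agent.W782.NLLIVE.main Pool.Agent.W639.NLCARD.main
      Pool.Agent.W327.NLDEG.main Pool.Agent.W790.NLPROG.main Pool.Agent.W978.NLC.main hQ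
      Pool.Agent.W54.NLNUM.main

/-- Let `R = 6 + i`.

(1) The graph `graph i` has degree at most two.

(2) Let `i ≥ 3`, let `k` be even, `s ≥ 1` and `1 ≤ γ * s ^ 2 ^ (i - 3)`. Then every deterministic
branching program of log size at most `2 ^ (i - 3) * log s` which halts on all inputs, with the
right answer on a fraction of at least `1 / 2 + γ` of them, reads on average at least
`γ * N / (2 ^ 23 * R ^ 4 * s ^ 2)` different variables.

(3) Let `A ≥ 1`, let `i` be large and `R ^ A ≤ 2 ^ l ≤ 2 * R ^ A`, `k = 2 ^ l`. Then the function has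
Boolean circuits over the bits of the variables of size at most `N * (log N) ^ (A + 1)`, it has
a deterministic program of log size at most `N / (log N) ^ (A - 1)` which makes at most
`N / (log N) ^ A` steps, but every deterministic program of log size at most
`N / (log N) ^ (A + 3)` which halts on all inputs, with the right answer on a fraction of at least
`1 / 2 + 1 / log N` of them, reads on average at least `N / (log N) ^ 6` different variables. -/
theorem result :
    (∀ i : ℕ, (graph i).G.DegLe 2) ∧
    (∀ i : ℕ, 3 ≤ i → ∀ (k : ℕ) [NeZero k], Even k → ∀ s γ : ℝ, 1 ≤ s →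
      1 ≤ γ * s ^ 2 ^ (i - 3) →
      HardReads (fun x : (graph i).G.Var k → Fin k => xbit (graph i) x)
        (2 ^ (i - 3) * Real.log s) γ
        (γ * (Fintype.card ((graph i).G.Var k) / (2 ^ 23 * (6 + i) ^ 4 * s ^ 2)))) ∧
    ∀ A : ℕ, 1 ≤ A → ∃ i₀ : ℕ, ∀ i l : ℕ, i₀ ≤ i → (6 + i) ^ A ≤ 2 ^ l →
      2 ^ l ≤ 2 * (6 + i) ^ A →
      ∀ N : ℝ, N = Fintype.card ((graph i).G.Var (2 ^ l)) →
      ∀ f : ((graph i).G.Var (2 ^ l) → Fin (2 ^ l)) → Bool, f = (fun x => xbit (graph i) x) →
        (∃ T, ByCircuit f (N * Real.log N ^ (A + 1)) T) ∧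
        ByProgram f (N / Real.log N ^ (A - 1)) (N / Real.log N ^ A) (N / Real.log N ^ A) ∧
        HardReads f (N / Real.log N ^ (A + 3)) (1 / Real.log N) (N / Real.log N ^ 6) := by
  have h := main
  rw [← (funext graph_eq : graph = fam)] at h
  exact h

end Pool.Agent.Results.MP_d19090_lc.NearLinearSpaceLaw
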