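import Pool.Agent.W107.Q.QTapePar
import Pool.Agent.W107.BitAsym

/-!
# Satisfiability is not decidable in linear time by quantum machines with an unlimited quantum tape
-/

set_option autoImplicit false

namespace Pool.Agent.Results.MP_d19090_lc.QuantumUnlimitedTape

open Pool.Agent.W107 Pool.Agent.H774R2.QBIT

theorem result (D : ℕ) (hD : 1 ≤ D) (δ : ℝ) (hδ : 0 < δ) : ∃ c : ℝ, 0 < c ∧
    ∀ (m S g T L d e : ℕ) [NeZero L] (Q : QTape D (m * (3 * (Nat.clog 2 m + 1))) d e),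
      Q.Valid → d ≤ 2 ^ S → e ≤ 2 ^ g → Nat.log 2 m ≤ S → 1 ≤ g →
      (S : ℝ) ^ D * g ≤ c * m → 2 * T < L → Q.Decides L T δ (BitSat m (Nat.clog 2 m)) →
      c * (m * (3 * (Nat.clog 2 m + 1)) : ℕ) *
        (Real.log (m / ((S : ℝ) ^ D * g)) / Real.log m) *
        Real.sqrt (Real.log (m / ((S : ℝ) ^ D * g)) /
          Real.log (Real.log (m / ((S : ℝ) ^ D * g)))) ≤ T := by
  obtain ⟨c, hc, h⟩ := bit_asym_len (2 * D ^ 2 + 18 * D + 14) (by omega) (min δ (1 / 2) / 2)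
    (by have := lt_min hδ (by norm_num : (0 : ℝ) < 1 / 2); positivity)
  refine ⟨c, hc, ?_⟩
  intro m S g T L d e _ Q hV hQ hΓ hS hg hR hL hdec
  rcases Nat.eq_zero_or_pos S with rfl | hS1
  · have : ((0 : ℕ) : ℝ) ^ D = 0 := by
      rw [Nat.cast_zero]
      exact zero_pow (by omega)
    rw [this]
    simp
  have hR1 : (1 : ℝ) ≤ (S : ℝ) ^ D * g := by
    have : 1 ≤ S ^ D * g := Nat.mul_pos (pow_pos hS1 D) hg
    exact_mod_cast this
  have hdec' : Q.Decides L T (min δ (1 / 2)) (BitSat m (Nat.clog 2 m)) := by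
    have h1 : 1 / 2 + min δ (1 / 2) ≤ 1 / 2 + δ := by
      have := min_le_left δ (1 / 2)
      linarith
    exact fun x => ⟨fun hx => h1.trans ((hdec x).1 hx), fun hx => h1.trans ((hdec x).2 hx)⟩
  refine h m T _ hR1 hR fun H hh k κ w h1 h2 h3 h4 h5 h6 h7 => ?_
  refine q_tape_contra hD Q hV (Nat.le_pow_clog (by norm_num) m) hQ hΓ hS hS1 hg hL
    (min δ (1 / 2)) (lt_min hδ (by norm_num)) (min_le_right _ _) hdec' H hh k κ w h1 h2 h3 h4 h5
    ?_ h7
  have : ((S ^ D * g * 2 ^ ((2 * D ^ 2 + 18 * D + 14) * w) : ℕ) : ℝ) ≤ m := by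
    push_cast
    exact h6
  exact_mod_cast this

end Pool.Agent.Results.MP_d19090_lc.QuantumUnlimitedTape
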